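import Pool.Agent.H980R2.Cont.Main
import Pool.Agent.H980R2.Cont.Mom

/-!
Critical bond percolation on `ℤ²` (`p = 1/2`) in the half-infinite strip
`0 ≤ u - v ≤ L`, `u + v ≤ 1` (rotated by 45 degrees), `L = 2 n + 1`.  Let `N` be the number of the
vertices of the flat end `u + v = 1` of the strip, not on the right side `u - v = L`, which are joined
to the right side by an open path inside the strip.  We prove the exact law of `N` for every `n`, the
convergence in law of `N / L ^ (2/3)` to the density `exp (- x ^ 3) / Γ(4/3)` on `(0, ∞)`, and the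
convergence of all the moments.
-/

set_option autoImplicit false

namespace Pool.Agent.Results.MP_35f495_pr.FlatEndContacts

open MeasureTheory Filter Topology Finset

/-- The edges of `ℤ²`: `(u, v, false)` joins `(u, v)` to `(u + 1, v)` and `(u, v, true)` joins `(u, v)`
to `(u, v + 1)`. A configuration tells which edges are open (`true`). -/
abbrev Config := ℤ × ℤ × Bool → Bool

/-- Critical bond percolation: every edge is open with probability `1/2`, independently. -/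
noncomputable def crit : Measure Config :=
  Measure.infinitePi (fun _ => (PMF.uniformOfFintype Bool).toMeasure)

/-- `a` and `b` are the ends of an open edge. -/
def OpenEdge (ω : Config) (a b : ℤ × ℤ) : Prop :=
  (b = (a.1 + 1, a.2) ∧ ω (a.1, a.2, false) = true) ∨
  (a = (b.1 + 1, b.2) ∧ ω (b.1, b.2, false) = true) ∨
  (b = (a.1, a.2 + 1) ∧ ω (a.1, a.2, true) = true) ∨
  (a = (b.1, b.2 + 1) ∧ ω (b.1, b.2, true) = true)

/-- The half-infinite strip `0 ≤ u - v ≤ L`, `u + v ≤ 1`. -/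
def Strip (L : ℕ) (x : ℤ × ℤ) : Prop := 0 ≤ x.1 - x.2 ∧ x.1 - x.2 ≤ L ∧ x.1 + x.2 ≤ 1

/-- Connection by an open path inside the strip. -/
def Conn (L : ℕ) (ω : Config) : ℤ × ℤ → ℤ × ℤ → Prop :=
  Relation.ReflTransGen (fun a b => OpenEdge ω a b ∧ Strip L a ∧ Strip L b)

/-- The vertices of the flat end `u + v = 1`, not on the right side `u - v = L`, which are joined to
the right side. -/
def contacts (L : ℕ) (ω : Config) : Set (ℤ × ℤ) :=
  {x | x.1 + x.2 = 1 ∧ 0 ≤ x.1 - x.2 ∧ x.1 - x.2 < (L : ℤ) ∧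
    ∃ y : ℤ × ℤ, y.1 - y.2 = (L : ℤ) ∧ Conn L ω x y}

/-- The weights `w_s = s (s+1) ∏_{i=1}^{s-1} 2 (2n + 2i + 3) (n - i) / ((2n - i - 1) (2n + i + 4))`. -/
noncomputable def weight (n s : ℕ) : ℝ :=
  (s:ℝ) * (s+1) * ∏ i ∈ Icc 1 (s-1),
    (2 * (2*(n:ℝ) + 2*i + 3) * ((n:ℝ) - i)) / ((2*(n:ℝ) - i - 1) * (2*n + i + 4))

/-- **Contacts of the flat end with the side.** Let `L = 2 n + 1` and `N = (contacts L ω).ncard`.
(1) For `n ≥ 1` and `k ≤ n`: `P(N = k) = ∑_{s=k}^n w_s / ∑_{j=0}^n ∑_{s=j}^n w_s`.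
(2) For `t ≥ 0`: `P(N ≤ t L ^ (2/3))` tends to `(1 / Γ(4/3)) ∫_0^t exp (- x ^ 3) dx`.
(3) For every `m`: `E[(N / L ^ (2/3)) ^ m]` tends to `Γ((m + 1)/3) / Γ(1/3)`. -/
theorem result :
    (∀ n : ℕ, 1 ≤ n → ∀ k : ℕ, k ≤ n → crit.real {ω | (contacts (2*n+1) ω).ncard = k} =
      (∑ s ∈ Icc k n, weight n s) / ∑ j ∈ range (n+1), ∑ s ∈ Icc j n, weight n s) ∧
    (∀ t : ℝ, 0 ≤ t → Tendsto (fun n : ℕ => crit.real {ω | (((contacts (2*n+1) ω).ncard : ℕ) : ℝ) ≤
      t * (2*(n:ℝ)+1)^((2:ℝ)/3)}) atTop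
      (𝓝 ((∫ x in (0:ℝ)..t, Real.exp (-x^3)) / Real.Gamma (4/3)))) ∧
    (∀ m : ℕ, Tendsto (fun n : ℕ =>
      ∫ ω, (((contacts (2*n+1) ω).ncard : ℝ) / (2*(n:ℝ)+1)^((2:ℝ)/3))^m ∂crit)
      atTop (𝓝 (Real.Gamma (((m:ℝ)+1)/3) / Real.Gamma (1/3)))) :=
  ⟨fun n hn k hk => Pool.Agent.H980R2.Cont.main n hn k hk,
    fun t ht => Pool.Agent.H980R2.Cont.limit_law t ht,
    fun m => Pool.Agent.H980R2.Cont.moments m⟩

end Pool.Agent.Results.MP_35f495_pr.FlatEndContacts
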