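import Mathlib
import Pool.Agent.TH976.QC.Fin
import Pool.Agent.H160R2.SA.Arm

/-!
Critical bond percolation on `ℤ²` (`p = 1/2`) in the quadrant `{x ≥ 0, y ≥ 0}`, a domain with a
corner: the probability that an open path of the quadrant joins two disjoint arcs of the boundary is
given by Cardy's formula up to universal multiplicative constants, and so is the probability of the
complement. The arcs are arbitrary (one of them may be infinite): they may be as small as one
vertex, adjacent to each other, next to the corner or far from it, or contain the corner.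

The boundary of the quadrant is parametrised by `t ∈ ℤ`: the vertex `(t, 0)` for `t ≥ 0` and
`(0, -t)` for `t ≤ 0`. The conformal map `z ↦ z²` of the quadrant onto the half-plane is
`t ↦ t |t|` on the boundary, and Cardy's formula is applied to the images of the end points of the
arcs.
-/

set_option autoImplicit false

namespace Pool.Agent.Results.MP_35f495_pr.QuadrantCardy

open MeasureTheory

/-- The square lattice: two points of `ℤ²` are adjacent when they differ by one in exactly one
coordinate. -/
def Z2 : SimpleGraph (ℤ × ℤ) where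
  Adj u v := |u.1 - v.1| + |u.2 - v.2| = 1
  symm := ⟨fun u v h => by rw [abs_sub_comm v.1, abs_sub_comm v.2]; exact h⟩
  loopless := ⟨fun u h => by simp at h⟩

/-- Critical bond percolation: every edge of the square lattice is open (`true`) with
probability `1/2`, independently of the other edges. -/
noncomputable def crit : Measure (Z2.edgeSet → Bool) :=
  Measure.infinitePi (fun _ => ProbabilityTheory.bernoulliMeasure true false
    ⟨1/2, by norm_num, by norm_num⟩)

/-- The graph of the open edges. -/
def openGraph (ω : Z2.edgeSet → Bool) : SimpleGraph (ℤ × ℤ) :=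
  SimpleGraph.fromEdgeSet {e | ∃ h : e ∈ Z2.edgeSet, ω ⟨e, h⟩ = true}

/-- The boundary vertex of the quadrant with parameter `t`: `(t, 0)` if `t ≥ 0`, and `(0, -t)` if
`t ≤ 0`. -/
def bdry (t : ℤ) : ℤ × ℤ := (max t 0, max (-t) 0)

/-- The crossing probability: the probability that an open path of the closed quadrant joins a
boundary vertex with parameter in `I` to a boundary vertex with parameter in `J`. -/
noncomputable def cross (I J : Set ℤ) : ℝ :=
  crit.real {ω | ∃ x ∈ I, ∃ y ∈ J, ∃ p : (openGraph ω).Walk (bdry x) (bdry y),
    ∀ v ∈ p.support, 0 ≤ v.1 ∧ 0 ≤ v.2}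

/-- Cardy's function, of the cross-ratio. -/
noncomputable def cardy (x : ℝ) : ℝ :=
  (∫ u in (0 : ℝ)..x, u ^ (-(2/3) : ℝ) * (1 - u) ^ (-(2/3) : ℝ)) /
    ∫ u in (0 : ℝ)..1, u ^ (-(2/3) : ℝ) * (1 - u) ^ (-(2/3) : ℝ)

/-- The cross-ratio for which Cardy's formula `cardy (crossRatio z₁ z₂ z₃ z₄)` is the crossing
probability of the half-plane between `[z₁, z₂]` and `[z₃, z₄]`. -/
noncomputable def crossRatio (z₁ z₂ z₃ z₄ : ℝ) : ℝ :=
  ((z₂ - z₁) * (z₄ - z₃)) / ((z₃ - z₁) * (z₄ - z₂))

/-- The map `z ↦ z²` of the quadrant onto the half-plane, on the boundary. -/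
noncomputable def sq (t : ℝ) : ℝ := t * |t|

/-- The crossing probability `p` and its complement agree with Cardy's formula at the cross-ratio
`x`, up to the factors `c` and `C`. -/
def Agree (c C p x : ℝ) : Prop :=
  (c * cardy x ≤ p ∧ p ≤ C * cardy x) ∧
    (c * (1 - cardy x) ≤ 1 - p ∧ 1 - p ≤ C * (1 - cardy x))

theorem cross_eq (I J : Set ℤ) : cross I J = TH976.QC.crossQ I J := rfl

theorem agree_of {c C p x : ℝ} (h : TH976.QC.CBd c C p x) : Agree c C p x :=
  ⟨⟨h.1, h.2.1⟩, ⟨h.2.2.1, h.2.2.2⟩⟩

/-- **Cardy's formula up to universal constants in the quadrant.** There are `c, C > 0` such that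
the probability that an open path of the quadrant joins the boundary arc with parameters `a, …, b`
to the boundary arc with parameters `a', …, b'` (`b < a'`), and the probability that there is no
such path, agree up to the factors `c` and `C` with the values given by Cardy's formula for the
images of the four end points under `z ↦ z²` (the arcs are enlarged by one mesh at their outer
ends, so that arcs which consist of one vertex are allowed). The same is true if one of the two arcs
is infinite. -/
theorem result : ∃ c C : ℝ, 0 < c ∧ 0 < C ∧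
    (∀ a b a' b' : ℤ, a ≤ b → b < a' → a' ≤ b' →
      Agree c C (cross (Set.Icc a b) (Set.Icc a' b'))
        (crossRatio (sq (a - 1)) (sq b) (sq a') (sq (b' + 1)))) ∧
    (∀ b a' b' : ℤ, b < a' → a' ≤ b' →
      Agree c C (cross (Set.Iic b) (Set.Icc a' b'))
        ((sq (b' + 1) - sq a') / (sq (b' + 1) - sq b))) ∧
    (∀ a b a' : ℤ, a ≤ b → b < a' →
      Agree c C (cross (Set.Icc a b) (Set.Ici a'))
        ((sq b - sq (a - 1)) / (sq a' - sq (a - 1)))) := by
  obtain ⟨c, C, hc, hC, h1, h2, h3⟩ := TH976.QC.cardy_quadrant Pool.Agent.H160R2.SA.arSharp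
  exact ⟨c, C, hc, hC, fun a b a' b' k1 k2 k3 => agree_of (h1 a b a' b' k1 k2 k3),
    fun b a' b' k1 k2 => agree_of (h2 b a' b' k1 k2), fun a b a' k1 k2 => agree_of (h3 a b a' k1 k2)⟩

end Pool.Agent.Results.MP_35f495_pr.QuadrantCardy
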