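import Pool.Agent.X136.QC.Slit

set_option autoImplicit false

/-!
# Crossing probabilities of critical bond percolation on `ℤ²` in a random environment

The edges `e` of `ℤ²` get independent random parameters `q e` with a common law `ν` on `[0, 1]` of mean
`1 / 2`, not concentrated on `{0, 1}`; given this environment the edge `e` is open with probability
`q e`, independently of the others (`ν = δ_{1/2}` is critical bond percolation).

For all subsets `D` of the lattice and all sets `S`, `T` of vertices at distance at least `n`, the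
quenched probability of an open path in `D` from `S` to `T` differs from the one of critical bond
percolation by at most `O(n ^ (-5/96))` in mean square: in the scaling limit, the crossing
probabilities of all domains are the same in almost every environment as for critical bond
percolation. In particular the existence and the conformal invariance of the limits is the same
question for all these environments, and Cardy's formula holds in the slit strips, almost surely.

Definitions: `Pool/Agent/X136/QC/Model.lean` (`Edge`, `ends`, `law`, `env`, `rho`, `crit`, `Step`,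
`Joined`, `sd`, `slitStrip`, `leftBank`, `rightWall`, `cardy`).
-/

namespace Pool.Agent.Results.MP_35f495_pr.QuenchedUniversality

open MeasureTheory Filter Topology Pool.Agent.X136.QC

/-- **Quenched universality of the crossing probabilities.**
(1) mean square bound, uniform in the domain `D` and in the sets `S`, `T`;
(2) limits in probability, for arbitrary sequences of domains and arcs;
(3) almost sure limits, if the distances grow fast enough (for instance like `2 ^ k`);
(4) Cardy's formula in the slit strips, almost surely, for all cross-ratios and all sequences of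
widths simultaneously. -/
theorem result :
    (∃ C : ℝ, 0 < C ∧ ∀ (ν : Measure unitInterval) [IsProbabilityMeasure ν],
      ∫ p, (p : ℝ) ∂ν = 1 / 2 → rho ν < 1 → ∀ (D : Set Edge) (S T : Set (ℤ × ℤ)),
      Measurable (fun q => (law q).real (Joined D S T)) ∧
      ∀ n : ℕ, 1 ≤ n → (∀ u ∈ S, ∀ v ∈ T, n ≤ sd u v) →
        ∫ q, ((law q).real (Joined D S T) - crit.real (Joined D S T)) ^ 2 ∂env ν ≤
          C * (rho ν / (1 - rho ν) ^ 2) * (n : ℝ) ^ (-(5 / 48 : ℝ))) ∧
    ∀ (ν : Measure unitInterval) [IsProbabilityMeasure ν],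
      ∫ p, (p : ℝ) ∂ν = 1 / 2 → rho ν < 1 →
      (∀ (D : ℕ → Set Edge) (S T : ℕ → Set (ℤ × ℤ)) (n : ℕ → ℕ),
        (∀ k, ∀ u ∈ S k, ∀ v ∈ T k, n k ≤ sd u v) → Tendsto n atTop atTop → ∀ Q : ℝ,
        (Tendsto (fun k => crit.real (Joined (D k) (S k) (T k))) atTop (𝓝 Q) ↔
          ∀ ε : ℝ, 0 < ε → Tendsto (fun k => (env ν).real
            {q | ε ≤ |(law q).real (Joined (D k) (S k) (T k)) - Q|}) atTop (𝓝 0))) ∧
      (∀ (D : ℕ → Set Edge) (S T : ℕ → Set (ℤ × ℤ)) (n : ℕ → ℕ),
        (∀ k, ∀ u ∈ S k, ∀ v ∈ T k, n k ≤ sd u v) → (∀ k, 1 ≤ n k) →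
        Summable (fun k => (n k : ℝ) ^ (-(5 / 48 : ℝ))) → ∀ Q : ℝ,
        (Tendsto (fun k => crit.real (Joined (D k) (S k) (T k))) atTop (𝓝 Q) ↔
          ∀ᵐ q ∂env ν, Tendsto (fun k => (law q).real (Joined (D k) (S k) (T k))) atTop (𝓝 Q))) ∧
      ∀ᵐ q ∂env ν, ∀ x : ℝ, 0 < x → x < 1 → ∀ a b : ℕ → ℕ,
        Tendsto (fun n => (a n : ℝ) + b n) atTop atTop →
        Tendsto (fun n => (a n : ℝ) / (a n + b n)) atTop (𝓝 x) →
        Tendsto (fun n => (law q).real (Joined (slitStrip (a n) (b n)) leftBank (rightWall (b n))))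
          atTop (𝓝 (cardy x)) := by
  obtain ⟨C, hC, hvar⟩ := var_main
  refine ⟨⟨C, hC, fun ν _ hm hρ D S T => ⟨measurable_law D S T,
    fun n hn hd => hvar ν hm hρ D S T n hn hd⟩⟩, ?_⟩
  intro ν _ hm hρ
  refine ⟨?_, ?_, quenched_cardy hm hρ⟩
  · intro D S T n hd hn Q
    refine prob_iff ?_ Q
    have h1 : Tendsto (fun k => C * (rho ν / (1 - rho ν) ^ 2) * (n k : ℝ) ^ (-(5 / 48 : ℝ)))
        atTop (𝓝 0) := by
      have h2 : Tendsto (fun k => (n k : ℝ) ^ (-(5 / 48 : ℝ))) atTop (𝓝 0) :=
        (tendsto_rpow_neg_atTop (by norm_num)).comp (tendsto_natCast_atTop_atTop.comp hn)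
      have h3 := h2.const_mul (C * (rho ν / (1 - rho ν) ^ 2))
      rw [mul_zero] at h3
      exact h3
    refine squeeze_zero' (Eventually.of_forall fun k => integral_nonneg fun q => sq_nonneg _) ?_ h1
    filter_upwards [hn.eventually_ge_atTop 1] with k hk
    exact hvar ν hm hρ (D k) (S k) (T k) (n k) hk (hd k)
  · intro D S T n hd hn hs Q
    refine ae_iff_lim ?_ Q
    exact ae_tendsto (hs.mul_left (C * (rho ν / (1 - rho ν) ^ 2))) fun k =>
      hvar ν hm hρ (D k) (S k) (T k) (n k) (hn k) (hd k)

end Pool.Agent.Results.MP_35f495_pr.QuenchedUniversality
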