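import Pool.Agent.H981R2.TP.Plane2

/-!
Critical bond percolation on `ℤ²` (`p = 1/2`), rotated by 45 degrees: with the columns `u - v` and the
heights `u + v`, the plane is cut along the half-line `u - v = 1`, `u + v ≥ 1` (a slit whose tip is the
vertex `(1, 0)`).  We compute exactly the probability that the tip is joined to the column at the
distance `r` to the right, in the whole slit plane and in the slit strip whose left side is at the
distance `p` from the slit, and its sharp asymptotics.
-/

set_option autoImplicit false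

namespace Pool.Agent.Results.MP_35f495_pr.SlitTipArm

open MeasureTheory Filter Topology Finset

/-- The edges of `ℤ²`: `(u, v, false)` joins `(u, v)` to `(u + 1, v)` and `(u, v, true)` joins `(u, v)`
to `(u, v + 1)`. A configuration tells which edges are open (`true`). -/
abbrev Config := ℤ × ℤ × Bool → Bool

/-- Critical bond percolation: every edge is open with probability `1/2`, independently. -/
noncomputable def crit : Measure Config :=
  Measure.infinitePi (fun _ => (PMF.uniformOfFintype Bool).toMeasure)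

/-- `a` and `b` are the ends of an open edge. -/
def OpenEdge (ω : Config) (a b : ℤ × ℤ) : Prop :=
  (b = (a.1 + 1, a.2) ∧ ω (a.1, a.2, false) = true) ∨
  (a = (b.1 + 1, b.2) ∧ ω (b.1, b.2, false) = true) ∨
  (b = (a.1, a.2 + 1) ∧ ω (a.1, a.2, true) = true) ∨
  (a = (b.1, b.2 + 1) ∧ ω (b.1, b.2, true) = true)

/-- Open edges of the slit plane: the edges with an end on the slit and both ends at heights `≥ 1`
are removed. -/
def SlitEdge (ω : Config) (x y : ℤ × ℤ) : Prop :=
  OpenEdge ω x y ∧ ¬ (1 ≤ x.1 + x.2 ∧ 1 ≤ y.1 + y.2 ∧ (x.1 - x.2 = 1 ∨ y.1 - y.2 = 1))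

/-- Open edges of the slit strip: both ends in the columns `1 - p, …, 1 + r`. -/
def SlitStripEdge (p r : ℕ) (ω : Config) (x y : ℤ × ℤ) : Prop :=
  SlitEdge ω x y ∧ 1 - (p:ℤ) ≤ x.1 - x.2 ∧ x.1 - x.2 ≤ 1 + r ∧ 1 - (p:ℤ) ≤ y.1 - y.2 ∧
    y.1 - y.2 ≤ 1 + r

/-- The tip is joined to the column `1 + r` in the slit plane. -/
def PlaneArm (r : ℕ) : Set Config :=
  {ω | ∃ y : ℤ × ℤ, y.1 - y.2 = 1 + r ∧ Relation.ReflTransGen (SlitEdge ω) (1, 0) y}

/-- The tip is joined to the right side `1 + r` of the slit strip with the columns `1 - p, …, 1 + r`. -/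
def StripArm (p r : ℕ) : Set Config :=
  {ω | ∃ y : ℤ × ℤ, y.1 - y.2 = 1 + r ∧ Relation.ReflTransGen (SlitStripEdge p r ω) (1, 0) y}

/-- The rising factorial `(s)_k = s (s + 1) ⋯ (s + k - 1)`. -/
noncomputable def rising (s : ℝ) (k : ℕ) : ℝ := ∏ i ∈ range k, (s + i)

/-- **One arm from the tip of a slit.**
(1) Slit plane: for even `r > 0` the probability is exactly `(1/3)_r / (1/2)_r`.
(2) Slit strip: for odd `p` and even `r > 0` it is exactly
`(2/3)_p (1/3)_r (1/2)_{p+r} / ((1/2)_p (1/2)_r (2/3)_{p+r})`.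
(3) As `r → ∞` (all parities) the probability in the slit plane times `r ^ (1/6)` tends to
`√π / Γ(1/3)`.
(4) As `p, r → ∞` in any way, the probability in the slit strip times `(r (p + r) / p) ^ (1/6)` tends to
the same constant. -/
theorem result :
    (∀ r : ℕ, Even r → 0 < r → crit.real (PlaneArm r) = rising (1/3) r / rising (1/2) r) ∧
    (∀ p r : ℕ, Odd p → Even r → 0 < r → crit.real (StripArm p r) =
      rising (2/3) p * rising (1/3) r * rising (1/2) (p+r) /
        (rising (1/2) p * rising (1/2) r * rising (2/3) (p+r))) ∧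
    Tendsto (fun r : ℕ => crit.real (PlaneArm r) * (r : ℝ)^((1:ℝ)/6)) atTop
      (𝓝 (Real.sqrt Real.pi / Real.Gamma (1/3))) ∧
    (∀ p r : ℕ → ℕ, Tendsto p atTop atTop → Tendsto r atTop atTop →
      Tendsto (fun n => crit.real (StripArm (p n) (r n)) *
        ((r n : ℝ) * (p n + r n) / p n)^((1:ℝ)/6)) atTop
        (𝓝 (Real.sqrt Real.pi / Real.Gamma (1/3)))) :=
  ⟨fun _ hr hr0 => Pool.Agent.H981R2.TP.PL.plane_exact hr hr0,
    fun _ _ hp hr hr0 => Pool.Agent.H981R2.TP.PL.strip_exact hp hr hr0,
    Pool.Agent.H981R2.TP.PL.plane_asymp,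
    fun p r tp tr => Pool.Agent.H981R2.TP.PL.strip_asymp p r tp tr⟩

end Pool.Agent.Results.MP_35f495_pr.SlitTipArm
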